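import Mathlib
import Pool.Agent.Lib.H73F.C4

/-!
# MP_0b7af4_al (owner helper51): the counting criterion for denominators with a large power

Points `(X / ρ^(j+i), 1 / ρ^j)`, `j < J`, `i ≤ e`, `X ∈ Z`; labels `(j, ρ^(e-i) X mod s)` and
`(j + i, X, ρ^i mod X)`.
-/

set_option autoImplicit false

namespace Pool.Agent.H51F

open Finset Pool.Agent.H78.Farbman Pool.Agent.H73F

/-- the vectors -/
def vec (ρ : ℕ) (p : ℕ × ℕ × ℤ) : ℚ × ℚ :=
  ((p.2.2 : ℚ) / (ρ : ℚ) ^ (p.1 + p.2.1), 1 / (ρ : ℚ) ^ p.1)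

/-- the labels for the upper unipotents -/
def labA (ρ e s : ℕ) (p : ℕ × ℕ × ℤ) : ℕ × ℤ :=
  (p.1, ((ρ : ℤ) ^ (e - p.2.1) * p.2.2) % (s : ℤ))

/-- the labels for the lower unipotents -/
def labB (ρ : ℕ) (p : ℕ × ℕ × ℤ) : ℕ × ℤ × ℤ :=
  (p.1 + p.2.1, p.2.2, ((ρ : ℤ) ^ p.2.1) % p.2.2)

theorem f1_inj (ρ e J : ℕ) (hρ : 2 ≤ ρ) (Z : Finset ℤ) (hZ : ∀ X ∈ Z, ¬ (ρ : ℤ) ∣ X) :
    Set.InjOn (vec ρ) ((range J ×ˢ (range (e + 1) ×ˢ Z) : Finset (ℕ × ℕ × ℤ)) : Set _) := by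
  have hρ0 : (ρ : ℚ) ≠ 0 := by
    have : ρ ≠ 0 := by omega
    exact_mod_cast this
  have hρ1 : (1 : ℚ) < (ρ : ℚ) := by
    have : 1 < ρ := by omega
    exact_mod_cast this
  have key : ∀ (i i' : ℕ) (X X' : ℤ), i ≤ i' → (X : ℚ) * (ρ : ℚ) ^ i' = (X' : ℚ) * (ρ : ℚ) ^ i →
      ¬ (ρ : ℤ) ∣ X' → i = i' ∧ X = X' := by
    intro i i' X X' hii h hX'
    obtain ⟨d, rfl⟩ := Nat.exists_eq_add_of_le hii
    have h1 : (X : ℚ) * (ρ : ℚ) ^ d = (X' : ℚ) := by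
      have h2 : (ρ : ℚ) ^ i ≠ 0 := pow_ne_zero _ hρ0
      have h3 : ((X : ℚ) * (ρ : ℚ) ^ d) * (ρ : ℚ) ^ i = (X' : ℚ) * (ρ : ℚ) ^ i := by
        rw [← h, pow_add]; ring
      exact mul_right_cancel₀ h2 h3
    have h4 : X * (ρ : ℤ) ^ d = X' := by exact_mod_cast h1
    rcases Nat.eq_zero_or_pos d with hd | hd
    · subst hd
      simp at h4
      exact ⟨by omega, h4⟩
    · exfalso
      apply hX'
      rw [← h4]
      exact (dvd_pow_self _ (by omega)).mul_left X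
  rintro ⟨j, i, X⟩ hp ⟨j', i', X'⟩ hp' he
  simp only [coe_product, Set.mem_prod, mem_coe, mem_range] at hp hp'
  simp only [vec, Prod.mk.injEq] at he
  obtain ⟨h1, h2⟩ := he
  have hj : j = j' := by
    have h3 : (ρ : ℚ) ^ j = (ρ : ℚ) ^ j' := by
      have h4 := congrArg (fun t => 1 / t) h2
      simpa using h4
    exact (pow_right_injective₀ (by positivity) hρ1.ne') h3
  subst hj
  have h5 : (X : ℚ) * (ρ : ℚ) ^ i' = (X' : ℚ) * (ρ : ℚ) ^ i := by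
    have h6 : (ρ : ℚ) ^ (j + i) ≠ 0 := pow_ne_zero _ hρ0
    have h7 : (ρ : ℚ) ^ (j + i') ≠ 0 := pow_ne_zero _ hρ0
    rw [div_eq_div_iff h6 h7, pow_add, pow_add] at h1
    have h8 : (ρ : ℚ) ^ j ≠ 0 := pow_ne_zero _ hρ0
    have h9 : ((X : ℚ) * (ρ : ℚ) ^ i') * (ρ : ℚ) ^ j = ((X' : ℚ) * (ρ : ℚ) ^ i) * (ρ : ℚ) ^ j := by
      linear_combination h1
    exact mul_right_cancel₀ h8 h9
  rcases le_total i i' with hii | hii
  · obtain ⟨rfl, rfl⟩ := key i i' X X' hii h5 (hZ X' hp'.2.2)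
    rfl
  · obtain ⟨rfl, rfl⟩ := key i' i X' X hii h5.symm (hZ X hp.2.2)
    rfl

theorem f1_labA (ρ e s m J : ℕ) (hρ : 2 ≤ ρ) (hm : 1 ≤ m) (Z : Finset ℤ)
    (p p' : ℕ × ℕ × ℤ) (hp : p ∈ range J ×ˢ (range (e + 1) ×ˢ Z))
    (hp' : p' ∈ range J ×ˢ (range (e + 1) ×ˢ Z)) (he : labA ρ e s p = labA ρ e s p') :
    (vec ρ p').2 = (vec ρ p).2 ∧ ∃ M : ℤ, (vec ρ p').1 = (vec ρ p).1 +
      (M : ℚ) * ((s : ℚ) / ((m : ℚ) * (ρ : ℚ) ^ e)) * (vec ρ p).2 := by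
  obtain ⟨j, i, X⟩ := p
  obtain ⟨j', i', X'⟩ := p'
  rw [mem_product, mem_product, mem_range, mem_range] at hp hp'
  simp only at hp hp'
  have h0 : (ρ : ℚ) ≠ 0 := by
    have : ρ ≠ 0 := by omega
    exact_mod_cast this
  have hm0 : (m : ℚ) ≠ 0 := by
    have : m ≠ 0 := by omega
    exact_mod_cast this
  simp only [labA, Prod.mk.injEq] at he
  obtain ⟨rfl, he⟩ := he
  refine ⟨rfl, ?_⟩
  obtain ⟨M, hM⟩ : (s : ℤ) ∣ (ρ : ℤ) ^ (e - i') * X' - (ρ : ℤ) ^ (e - i) * X :=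
    (Int.ModEq.dvd he)
  refine ⟨M * m, ?_⟩
  have hM' : (ρ : ℚ) ^ (e - i') * X' - (ρ : ℚ) ^ (e - i) * X = s * M := by exact_mod_cast hM
  simp only [vec]
  have e1 : (ρ : ℚ) ^ e = (ρ : ℚ) ^ (e - i) * (ρ : ℚ) ^ i := by
    rw [← pow_add]; congr 1; omega
  have e2 : (ρ : ℚ) ^ e = (ρ : ℚ) ^ (e - i') * (ρ : ℚ) ^ i' := by
    rw [← pow_add]; congr 1; omega
  have a1 : (X : ℚ) / (ρ : ℚ) ^ (j + i) = (ρ : ℚ) ^ (e - i) * X / ((ρ : ℚ) ^ j * (ρ : ℚ) ^ e) := by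
    rw [e1, pow_add, div_eq_div_iff (by positivity) (by positivity)]
    ring
  have a2 : (X' : ℚ) / (ρ : ℚ) ^ (j + i') =
      (ρ : ℚ) ^ (e - i') * X' / ((ρ : ℚ) ^ j * (ρ : ℚ) ^ e) := by
    rw [e2, pow_add, div_eq_div_iff (by positivity) (by positivity)]
    ring
  rw [a1, a2]
  have h3 : (ρ : ℚ) ^ (e - i') * X' = (ρ : ℚ) ^ (e - i) * X + s * M := by linarith
  rw [h3]
  push_cast
  field_simp

theorem f1_labB (ρ e J : ℕ) (hρ : 2 ≤ ρ) (Z : Finset ℤ)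
    (p p' : ℕ × ℕ × ℤ) (hp : p ∈ range J ×ˢ (range (e + 1) ×ˢ Z))
    (hp' : p' ∈ range J ×ˢ (range (e + 1) ×ˢ Z)) (he : labB ρ p = labB ρ p') :
    (vec ρ p').1 = (vec ρ p).1 ∧ ∃ M : ℤ, (vec ρ p').2 = (vec ρ p).2 +
      (M : ℚ) * (vec ρ p).1 := by
  obtain ⟨j, i, X⟩ := p
  obtain ⟨j', i', X'⟩ := p'
  have h0 : (ρ : ℚ) ≠ 0 := by
    have : ρ ≠ 0 := by omega
    exact_mod_cast this
  simp only [labB, Prod.mk.injEq] at he
  obtain ⟨hR, rfl, he⟩ := he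
  simp only [vec]
  rw [← hR]
  refine ⟨rfl, ?_⟩
  obtain ⟨M, hM⟩ : X ∣ (ρ : ℤ) ^ i' - (ρ : ℤ) ^ i := (Int.ModEq.dvd he)
  refine ⟨M, ?_⟩
  have hM' : (ρ : ℚ) ^ i' = (ρ : ℚ) ^ i + X * M := by
    have : (ρ : ℚ) ^ i' - (ρ : ℚ) ^ i = X * M := by exact_mod_cast hM
    linarith
  have b1 : (1 : ℚ) / (ρ : ℚ) ^ j = (ρ : ℚ) ^ i / (ρ : ℚ) ^ (j + i) := by
    rw [pow_add, div_eq_div_iff (by positivity) (by positivity)]
    ring
  have b2 : (1 : ℚ) / (ρ : ℚ) ^ j' = (ρ : ℚ) ^ i' / (ρ : ℚ) ^ (j + i) := by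
    rw [hR, pow_add, div_eq_div_iff (by positivity) (by positivity)]
    ring
  rw [b1, b2, hM']
  ring

/-- The criterion: if `Z` is a finite set of integers not divisible by `ρ`, every `X ∈ Z` has at
most `G` residues `ρ^i mod X`, `i ≤ e`, and `s + G |Z| < (e + 1) |Z|`, then `s / (m ρ^e)` is a
relation number. -/
theorem f1_crit (ρ e m s G : ℕ) (hρ : 2 ≤ ρ) (hm : 1 ≤ m) (hs : 1 ≤ s) (Z : Finset ℤ)
    (hZ : ∀ X ∈ Z, ¬ (ρ : ℤ) ∣ X)
    (hG : ∀ X ∈ Z, ((range (e + 1)).image (fun i => ((ρ : ℤ) ^ i) % X)).card ≤ G)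
    (h : s + G * Z.card < (e + 1) * Z.card) :
    IsRelationNumber ((s : ℚ) / ((m : ℚ) * (ρ : ℚ) ^ e)) := by
  classical
  by_contra hq
  have main : ∀ J : ℕ, J * ((e + 1) * Z.card) ≤ J * s + (J + e) * (G * Z.card) := by
    intro J
    set P : Finset (ℕ × ℕ × ℤ) := range J ×ˢ (range (e + 1) ×ˢ Z) with hP
    have h1 := c4_crit ((s : ℚ) / ((m : ℚ) * (ρ : ℚ) ^ e)) hq P (vec ρ) (by
      rintro ⟨j, i, X⟩ _ he
      have h2 := congrArg Prod.snd he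
      simp only [vec] at h2
      have h0 : (ρ : ℚ) ≠ 0 := by
        have : ρ ≠ 0 := by omega
        exact_mod_cast this
      exact (one_div_ne_zero (pow_ne_zero j h0)) h2)
      (f1_inj ρ e J hρ Z hZ) (labA ρ e s) (labB ρ)
      (fun p hp p' hp' he => f1_labA ρ e s m J hρ hm Z p p' hp hp' he)
      (fun p hp p' hp' he => f1_labB ρ e J hρ Z p p' hp hp' he)
    have hPc : P.card = J * ((e + 1) * Z.card) := by
      rw [hP, card_product, card_product, card_range, card_range]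
    have hA : ∀ inst : DecidableEq (ℕ × ℤ),
        (@Finset.image _ _ inst (labA ρ e s) P).card ≤ J * s := by
      intro inst
      have hsub : @Finset.image _ _ inst (labA ρ e s) P ⊆
          range J ×ˢ Finset.Ico (0 : ℤ) (s : ℤ) := by
        intro q hq'
        rw [mem_image] at hq'
        obtain ⟨⟨j, i, X⟩, hp, rfl⟩ := hq'
        rw [hP, mem_product] at hp
        rw [mem_product]
        refine ⟨hp.1, ?_⟩
        rw [Finset.mem_Ico]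
        have hs0 : (0 : ℤ) < (s : ℤ) := by exact_mod_cast hs
        exact ⟨Int.emod_nonneg _ hs0.ne', Int.emod_lt_of_pos _ hs0⟩
      refine (card_le_card hsub).trans ?_
      rw [card_product, card_range, Int.card_Ico]
      simp
    have hB : ∀ inst : DecidableEq (ℕ × ℤ × ℤ),
        (@Finset.image _ _ inst (labB ρ) P).card ≤ (J + e) * (G * Z.card) := by
      intro inst
      have hsub : @Finset.image _ _ inst (labB ρ) P ⊆ range (J + e) ×ˢ (Z.biUnion fun X =>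
          ((range (e + 1)).image (fun i => ((ρ : ℤ) ^ i) % X)).image (fun d => (X, d))) := by
        intro q hq'
        rw [mem_image] at hq'
        obtain ⟨⟨j, i, X⟩, hp, rfl⟩ := hq'
        rw [hP, mem_product, mem_product, mem_range, mem_range] at hp
        simp only at hp
        rw [mem_product]
        refine ⟨?_, ?_⟩
        · simp only [labB, mem_range]
          omega
        · rw [mem_biUnion]
          refine ⟨X, hp.2.2, ?_⟩
          rw [mem_image]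
          refine ⟨((ρ : ℤ) ^ i) % X, ?_, rfl⟩
          rw [mem_image]
          exact ⟨i, mem_range.2 hp.2.1, rfl⟩
      refine (card_le_card hsub).trans ?_
      rw [card_product, card_range]
      refine Nat.mul_le_mul_left _ ?_
      rw [mul_comm]
      refine card_biUnion_le_card_mul _ _ _ ?_
      intro X hX
      exact card_image_le.trans (hG X hX)
    rw [hPc] at h1
    exact h1.trans (Nat.add_le_add (hA _) (hB _))
  have h2 := main (e * (G * Z.card) + 1)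
  generalize G * Z.card = g at *
  generalize (e + 1) * Z.card = c at *
  have h3 : (e * g + 1) * (s + g + 1) ≤ (e * g + 1) * c := Nat.mul_le_mul_left _ (by omega)
  nlinarith

end Pool.Agent.H51F
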