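import Mathlib

/-!
# MP_0b7af4_al (owner helper51): primes modulo which a perfect square has a given order

For `ρ ≥ 2` and `n ≥ 1` there is a prime `p` modulo which `ρ ^ 2` has order `n` (a case of the
theorem of Bang and Zsigmondy), hence `ρ ^ (2 k) - 1` has at least `2 ^ d(k)` divisors.
-/

set_option autoImplicit false

namespace Pool.Agent.H51F

open Finset Polynomial

theorem f2_sum (p : ℕ) (hp : p.Prime) (w : ℤ) (hw : (p : ℤ) ∣ w - 1) (h2 : p = 2 → w % 4 = 1) :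
    ¬ ((p : ℤ) ^ 2 ∣ ∑ i ∈ range p, w ^ i) := by
  intro hdvd
  rcases hp.eq_two_or_odd' with rfl | hodd
  · have h3 := h2 rfl
    simp only [sum_range_succ, range_zero, sum_empty, pow_zero, pow_one, zero_add] at hdvd
    push_cast at hdvd
    norm_num at hdvd
    omega
  · obtain ⟨b, hb⟩ := hw
    have h3 := odd_sq_dvd_geom_sum₂_sub (R := ℤ) 1 b hodd
    have h4 : (1 : ℤ) + (p : ℤ) * b = w := by linarith
    rw [h4] at h3
    simp only [one_pow, mul_one] at h3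
    have h5 : (p : ℤ) ^ 2 ∣ (p : ℤ) := by
      have h6 := dvd_sub hdvd h3
      simpa using h6
    have h6 : p ^ 2 ∣ p := by exact_mod_cast h5
    have h7 := Nat.le_of_dvd hp.pos h6
    have h8 := hp.two_le
    nlinarith

/-- the value of the cyclotomic polynomial -/
noncomputable def Phi (n z : ℕ) : ℕ := ((cyclotomic n ℤ).eval (z : ℤ)).natAbs

theorem f2_root {n z p : ℕ} [Fact p.Prime] (h : p ∣ Phi n z) :
    IsRoot (cyclotomic n (ZMod p)) ((z : ℕ) : ZMod p) := by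
  have h1 : ((z : ℤ) : ZMod p) = Int.castRingHom (ZMod p) (z : ℤ) := by simp
  have h2 : ((z : ℕ) : ZMod p) = ((z : ℤ) : ZMod p) := by simp
  rw [IsRoot.def, h2, ← map_cyclotomic_int n (ZMod p), eval_map, h1, eval₂_hom,
    Int.coe_castRingHom, ZMod.intCast_zmod_eq_zero_iff_dvd]
  exact Int.dvd_natAbs.1 (by exact_mod_cast h)

theorem f2_order {n z p : ℕ} (hp : p.Prime) (h : p ∣ Phi n z) (hn : ¬ p ∣ n) :
    orderOf ((z : ℕ) : ZMod p) = n := by
  haveI : Fact p.Prime := ⟨hp⟩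
  have h1 := f2_root h
  haveI : NeZero ((n : ℕ) : ZMod p) := NeZero.of_not_dvd (ZMod p) hn
  exact (isRoot_cyclotomic_iff.mp h1).eq_orderOf.symm

theorem f2_prim {n z p : ℕ} (hp : p.Prime) (h : p ∣ Phi n z) (hn0 : n ≠ 0) :
    ∃ a m : ℕ, n = p ^ a * m ∧ ¬ p ∣ m ∧ IsPrimitiveRoot ((z : ℕ) : ZMod p) m := by
  haveI : Fact p.Prime := ⟨hp⟩
  obtain ⟨a, m, hm, he⟩ := Nat.exists_eq_pow_mul_and_not_dvd hn0 p hp.ne_one
  refine ⟨a, m, he, hm, ?_⟩
  haveI : NeZero ((m : ℕ) : ZMod p) := NeZero.of_not_dvd (ZMod p) hm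
  have h1 := f2_root h
  rw [he] at h1
  exact isRoot_cyclotomic_prime_pow_mul_iff_of_charP.1 h1

theorem f2_lt {n z p q : ℕ} (hp : p.Prime) (h : p ∣ Phi n z) (hn0 : n ≠ 0) (hq : q.Prime)
    (hqn : q ∣ n) (hqp : q ≠ p) : q < p := by
  haveI : Fact p.Prime := ⟨hp⟩
  obtain ⟨a, m, he, hm, hprim⟩ := f2_prim hp h hn0
  have h1 : q ∣ m := by
    rw [he] at hqn
    rcases (hq.dvd_mul).1 hqn with h2 | h2
    · exact absurd ((Nat.prime_dvd_prime_iff_eq hq hp).1 (hq.dvd_of_dvd_pow h2)) hqp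
    · exact h2
  have hm0 : m ≠ 0 := by
    rintro rfl
    exact hm (dvd_zero p)
  have hz0 : ((z : ℕ) : ZMod p) ≠ 0 := by
    intro h0
    have h3 := hprim.pow_eq_one
    rw [h0, zero_pow hm0] at h3
    exact zero_ne_one h3
  have h2 : m ∣ p - 1 := by
    rw [hprim.eq_orderOf]
    exact ZMod.orderOf_dvd_card_sub_one hz0
  have h3 : q ≤ p - 1 := Nat.le_of_dvd (Nat.sub_pos_of_lt hp.one_lt) (h1.trans h2)
  have h4 := hp.one_lt
  omega

theorem f2_sq {n ρ p : ℕ} (hρ : 2 ≤ ρ) (hp : p.Prime) (h : p ∣ Phi n (ρ ^ 2)) (hn0 : n ≠ 0)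
    (hpn : p ∣ n) : ¬ (p ^ 2 ∣ Phi n (ρ ^ 2)) := by
  intro hsq
  haveI : Fact p.Prime := ⟨hp⟩
  obtain ⟨a, m, he, hm, hprim⟩ := f2_prim hp h hn0
  obtain ⟨d, hd⟩ := hpn
  have hd0 : d ≠ 0 := by
    rintro rfl
    exact hn0 (by rw [hd, mul_zero])
  have hdn : d ∈ n.properDivisors := by
    rw [Nat.mem_properDivisors]
    refine ⟨⟨p, by rw [hd, mul_comm]⟩, ?_⟩
    rw [hd]
    have := hp.two_le
    nlinarith [Nat.pos_of_ne_zero hd0]
  have hmd : m ∣ d := by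
    have h1 : m ∣ p * d := by
      rw [← hd, he]
      exact dvd_mul_left m _
    have h2 : Nat.Coprime m p := ((Nat.Prime.coprime_iff_not_dvd hp).2 hm).symm
    exact h2.dvd_of_dvd_mul_left h1
  have h2 := X_pow_sub_one_mul_cyclotomic_dvd_X_pow_sub_one_of_dvd ℤ hdn
  have h3 := eval_dvd (x := ((ρ ^ 2 : ℕ) : ℤ)) h2
  simp only [eval_mul, eval_sub, eval_pow, eval_X, eval_one] at h3
  set w : ℤ := ((ρ ^ 2 : ℕ) : ℤ) ^ d with hw
  have h4 : ((ρ ^ 2 : ℕ) : ℤ) ^ n = w ^ p := by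
    rw [hw, ← pow_mul, hd, mul_comm p d]
  rw [h4, ← mul_geom_sum w p] at h3
  have hw1 : w - 1 ≠ 0 := by
    have h5 : (1 : ℤ) < w := by
      rw [hw]
      have h6 : (1 : ℤ) < ((ρ ^ 2 : ℕ) : ℤ) := by
        have : 1 < ρ ^ 2 := by nlinarith
        exact_mod_cast this
      exact one_lt_pow₀ h6 hd0
    omega
  have h5 : (cyclotomic n ℤ).eval ((ρ ^ 2 : ℕ) : ℤ) ∣ ∑ i ∈ range p, w ^ i :=
    (mul_dvd_mul_iff_left hw1).1 h3
  have h6 : (p : ℤ) ^ 2 ∣ ∑ i ∈ range p, w ^ i := by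
    refine dvd_trans ?_ h5
    apply Int.dvd_natAbs.1
    exact_mod_cast hsq
  have h7 : (p : ℤ) ∣ w - 1 := by
    have h8 : ((w - 1 : ℤ) : ZMod p) = 0 := by
      obtain ⟨c, hc⟩ := hmd
      rw [hw]
      push_cast
      have h9 := hprim.pow_eq_one
      push_cast at h9
      rw [hc, pow_mul, h9, one_pow, sub_self]
    exact (ZMod.intCast_zmod_eq_zero_iff_dvd _ _).1 h8
  refine f2_sum p hp w h7 ?_ h6
  rintro rfl
  have h8 : w = ((ρ : ℤ) ^ d) ^ 2 := by
    rw [hw]; push_cast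
    rw [← pow_mul, ← pow_mul, mul_comm]
  have h9 : Odd w := by
    rcases Int.even_or_odd w with h10 | h10
    · exfalso
      obtain ⟨c, hc⟩ := h10
      push_cast at h7
      omega
    · exact h10
  rw [h8] at h9 ⊢
  have h10 : Odd ((ρ : ℤ) ^ d) := by
    rcases Int.even_or_odd ((ρ : ℤ) ^ d) with h11 | h11
    · exfalso
      have := h11.pow_of_ne_zero (n := 2) (by norm_num)
      exact (Int.not_even_iff_odd.2 h9) this
    · exact h11
  exact Int.sq_mod_four_eq_one_of_odd h10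

theorem f2_prime (ρ n : ℕ) (hρ : 2 ≤ ρ) (hn : 1 ≤ n) :
    ∃ p : ℕ, p.Prime ∧ orderOf ((ρ ^ 2 : ℕ) : ZMod p) = n := by
  have hz : 4 ≤ ρ ^ 2 := by nlinarith
  rcases Nat.lt_or_ge 1 n with h1 | h1
  · have hn0 : n ≠ 0 := by omega
    have h2 : (ρ ^ 2 - 1) ^ n.totient < Phi n (ρ ^ 2) :=
      sub_one_pow_totient_lt_natAbs_cyclotomic_eval h1 (by omega)
    have h3 : 3 ^ n.totient ≤ (ρ ^ 2 - 1) ^ n.totient := Nat.pow_le_pow_left (by omega) _
    by_contra hcon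
    push Not at hcon
    have hall : ∀ p : ℕ, p.Prime → p ∣ Phi n (ρ ^ 2) → p ∣ n := by
      intro p hp hpd
      by_contra hpn
      exact hcon p hp (f2_order hp hpd hpn)
    have hPhi1 : Phi n (ρ ^ 2) ≠ 1 := by
      have : 1 ≤ 3 ^ n.totient := Nat.one_le_pow _ _ (by norm_num)
      omega
    obtain ⟨p, hp, hpd⟩ := Nat.exists_prime_and_dvd hPhi1
    have hpn := hall p hp hpd
    have hPhi : Phi n (ρ ^ 2) = p := by
      obtain ⟨c, hc⟩ := hpd
      by_cases hc1 : c = 1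
      · rw [hc, hc1, mul_one]
      · exfalso
        obtain ⟨q, hq, hqc⟩ := Nat.exists_prime_and_dvd hc1
        have hqd : q ∣ Phi n (ρ ^ 2) := by
          rw [hc]; exact hqc.mul_left p
        have hqn := hall q hq hqd
        by_cases hqp : q = p
        · subst hqp
          refine f2_sq hρ hq hqd hn0 hqn ?_
          rw [hc, pow_two]
          exact Nat.mul_dvd_mul_left q hqc
        · have h4 := f2_lt hp (by rw [hc]; exact dvd_mul_right p c) hn0 hq hqn hqp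
          have h5 := f2_lt hq hqd hn0 hp hpn (Ne.symm hqp)
          omega
    have h4 : p - 1 ≤ n.totient := by
      rw [← Nat.totient_prime hp]
      exact Nat.le_of_dvd (Nat.totient_pos.2 (by omega)) (Nat.totient_dvd_of_dvd hpn)
    have h5 : 3 ^ (p - 1) ≤ 3 ^ n.totient := Nat.pow_le_pow_right (by norm_num) h4
    have h6 : p - 1 < 3 ^ (p - 1) := Nat.lt_pow_self (by norm_num)
    have h7 := hp.one_lt
    omega
  · have hn1 : n = 1 := by omega
    subst hn1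
    obtain ⟨p, hp, hpd⟩ := Nat.exists_prime_and_dvd (n := ρ ^ 2 - 1) (by omega)
    refine ⟨p, hp, ?_⟩
    rw [orderOf_eq_one_iff]
    have h2 : ((ρ ^ 2 - 1 : ℕ) : ZMod p) = 0 := (ZMod.natCast_eq_zero_iff _ _).2 hpd
    rw [Nat.cast_sub (by omega)] at h2
    rw [Nat.cast_one] at h2
    exact sub_eq_zero.1 h2

theorem f2_two_pow (N : ℕ) (hN : N ≠ 0) : 2 ^ N.primeFactors.card ≤ N.divisors.card := by
  classical
  rw [← card_powerset]
  refine card_le_card_of_injOn (fun S => ∏ p ∈ S, p) ?_ ?_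
  · intro S hS
    rw [mem_coe, mem_powerset] at hS
    rw [mem_coe, Nat.mem_divisors]
    refine ⟨?_, hN⟩
    exact (prod_dvd_prod_of_subset _ _ _ hS).trans (Nat.prod_primeFactors_dvd N)
  · intro S hS T hT he
    rw [mem_coe, mem_powerset] at hS hT
    have h1 := Nat.primeFactors_prod (s := S) fun p hp => Nat.prime_of_mem_primeFactors (hS hp)
    have h2 := Nat.primeFactors_prod (s := T) fun p hp => Nat.prime_of_mem_primeFactors (hT hp)
    simp only at he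
    rw [← h1, ← h2, he]

/-- `ρ ^ (2 k) - 1` has at least `2 ^ d(k)` divisors. -/
theorem f2_div (ρ k : ℕ) (hρ : 2 ≤ ρ) (hk : 1 ≤ k) :
    2 ^ k.divisors.card ≤ (ρ ^ (2 * k) - 1).divisors.card := by
  classical
  have hN1 : 1 < ρ ^ (2 * k) := Nat.one_lt_pow (by omega) (by omega)
  have hN : ρ ^ (2 * k) - 1 ≠ 0 := by omega
  refine le_trans ?_ (f2_two_pow _ hN)
  refine Nat.pow_le_pow_right (by norm_num) ?_
  have h1 : ∀ n : ℕ, ∃ p : ℕ, 1 ≤ n → p.Prime ∧ orderOf ((ρ ^ 2 : ℕ) : ZMod p) = n := by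
    intro n
    by_cases hn : 1 ≤ n
    · obtain ⟨p, hp⟩ := f2_prime ρ n hρ hn
      exact ⟨p, fun _ => hp⟩
    · exact ⟨0, fun h => absurd h hn⟩
  choose f hf using h1
  have hpos : ∀ n ∈ k.divisors, 1 ≤ n := fun n hn => Nat.pos_of_mem_divisors hn
  refine card_le_card_of_injOn f ?_ ?_
  · intro n hn
    rw [mem_coe] at hn
    obtain ⟨hp, ho⟩ := hf n (hpos n hn)
    rw [mem_coe, Nat.mem_primeFactors]
    refine ⟨hp, ?_, hN⟩
    have h2 : ((ρ ^ 2 : ℕ) : ZMod (f n)) ^ k = 1 :=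
      orderOf_dvd_iff_pow_eq_one.1 (by rw [ho]; exact Nat.dvd_of_mem_divisors hn)
    apply (ZMod.natCast_eq_zero_iff _ _).1
    rw [Nat.cast_sub (by omega), pow_mul, Nat.cast_pow, h2, Nat.cast_one, sub_self]
  · intro n hn n' hn' he
    rw [mem_coe] at hn hn'
    have h2 := (hf n (hpos n hn)).2
    have h3 := (hf n' (hpos n' hn')).2
    rw [← h2, ← h3, he]

end Pool.Agent.H51F
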