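import Mathlib
import Pool.Agent.Lib.H51F.F1
import Pool.Agent.Lib.H51F.F2
import Pool.Agent.H78.Farbman.Diag

/-!
# MP_0b7af4_al (owner helper51): fixed `k`
-/

set_option autoImplicit false

namespace Pool.Agent.H51F

open Finset Pool.Agent.H78.Farbman

theorem f3_pos (ρ k e m s : ℕ) (hρ : 2 ≤ ρ) (hk : 1 ≤ k) (he : 2 * k ≤ e) (hm : 1 ≤ m)
    (hs1 : 1 ≤ s) (hs : s < (e + 1 - 2 * k) * 2 ^ (k.divisors.card + 1)) :
    IsRelationNumber ((s : ℚ) / ((m : ℚ) * (ρ : ℚ) ^ e)) := by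
  classical
  set N := ρ ^ (2 * k) - 1 with hN
  have hN1 : 1 < ρ ^ (2 * k) := Nat.one_lt_pow (by omega) (by omega)
  have hNz : (N : ℤ) = (ρ : ℤ) ^ (2 * k) - 1 := by
    rw [hN, Nat.cast_sub (by omega)]; push_cast; ring
  set A : Finset ℤ := N.divisors.image (fun x : ℕ => (x : ℤ)) with hA
  set B : Finset ℤ := N.divisors.image (fun x : ℕ => -(x : ℤ)) with hB
  have hAc : A.card = N.divisors.card := by
    rw [hA]
    apply card_image_of_injective
    intro a b h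
    simpa using h
  have hBc : B.card = N.divisors.card := by
    rw [hB]
    apply card_image_of_injective
    intro a b h
    simpa using h
  have hAB : Disjoint A B := by
    rw [Finset.disjoint_left]
    intro x hx hx'
    rw [hA, mem_image] at hx
    rw [hB, mem_image] at hx'
    obtain ⟨a, ha, rfl⟩ := hx
    obtain ⟨b, hb, h⟩ := hx'
    have h1 := Nat.pos_of_mem_divisors ha
    have h2 := Nat.pos_of_mem_divisors hb
    omega
  have hZc : (A ∪ B).card = 2 * N.divisors.card := by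
    rw [card_union_of_disjoint hAB, hAc, hBc]; ring
  have hdvd : ∀ X ∈ A ∪ B, X ∣ (ρ : ℤ) ^ (2 * k) - 1 := by
    intro X hX
    rw [← hNz]
    rw [mem_union, hA, hB, mem_image, mem_image] at hX
    rcases hX with ⟨a, ha, rfl⟩ | ⟨a, ha, rfl⟩
    · exact_mod_cast Nat.dvd_of_mem_divisors ha
    · rw [neg_dvd]
      exact_mod_cast Nat.dvd_of_mem_divisors ha
  refine f1_crit ρ e m s (2 * k) hρ hm hs1 (A ∪ B) ?_ ?_ ?_
  · intro X hX hdX
    have h1 := hdX.trans (hdvd X hX)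
    have h2 : (ρ : ℤ) ∣ (ρ : ℤ) ^ (2 * k) := dvd_pow_self _ (by omega)
    have h3 : (ρ : ℤ) ∣ 1 := by
      have := dvd_sub h2 h1
      simpa using this
    have h4 : ρ ∣ 1 := by exact_mod_cast h3
    have h5 := Nat.dvd_one.1 h4
    omega
  · intro X hX
    have h1 := hdvd X hX
    have hmod : (ρ : ℤ) ^ (2 * k) ≡ 1 [ZMOD X] := (Int.modEq_iff_dvd.2 (by
      have := h1
      rw [← dvd_neg, neg_sub] at this
      exact this))
    have hsub : (range (e + 1)).image (fun i => ((ρ : ℤ) ^ i) % X) ⊆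
        (range (2 * k)).image (fun i => ((ρ : ℤ) ^ i) % X) := by
      intro y hy
      rw [mem_image] at hy ⊢
      obtain ⟨i, _, rfl⟩ := hy
      refine ⟨i % (2 * k), mem_range.2 (Nat.mod_lt _ (by omega)), ?_⟩
      have h2 : (ρ : ℤ) ^ i ≡ (ρ : ℤ) ^ (i % (2 * k)) [ZMOD X] := by
        have h3 : (ρ : ℤ) ^ i = ((ρ : ℤ) ^ (2 * k)) ^ (i / (2 * k)) * (ρ : ℤ) ^ (i % (2 * k)) := by
          rw [← pow_mul, ← pow_add, Nat.div_add_mod]
        rw [h3]
        have h4 := (hmod.pow (i / (2 * k))).mul_right ((ρ : ℤ) ^ (i % (2 * k)))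
        rw [one_pow, one_mul] at h4
        exact h4
      exact h2.symm
    refine (card_le_card hsub).trans (card_image_le.trans ?_)
    rw [card_range]
  · rw [hZc]
    have h1 := f2_div ρ k hρ hk
    rw [← hN] at h1
    obtain ⟨c, hc⟩ := Nat.exists_eq_add_of_le he
    have h2 : e + 1 - 2 * k = c + 1 := by omega
    rw [h2, pow_succ] at hs
    have h3 : (c + 1) * (2 ^ k.divisors.card * 2) ≤ (c + 1) * (N.divisors.card * 2) :=
      Nat.mul_le_mul_left _ (Nat.mul_le_mul_right _ h1)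
    have h4 : (e + 1) * (2 * N.divisors.card) =
        (c + 1) * (N.divisors.card * 2) + 2 * k * (2 * N.divisors.card) := by
      rw [hc]; ring
    rw [h4]
    omega

/-- For integers `ρ ≥ 2`, `k ≥ 1`, `e ≥ 2 k`, `m ≥ 1` every `s` with
`|s| < (e + 1 - 2 k) 2 ^ (d(k) + 1)` gives a relation number `s / (m ρ^e)`. -/
theorem f3_main (ρ k e m : ℕ) (hρ : 2 ≤ ρ) (hk : 1 ≤ k) (he : 2 * k ≤ e) (hm : 1 ≤ m)
    (s : ℤ) (hs : |s| < ((e + 1 - 2 * k : ℕ) : ℤ) * 2 ^ (k.divisors.card + 1)) :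
    IsRelationNumber ((s : ℚ) / ((m : ℚ) * (ρ : ℚ) ^ e)) := by
  rcases lt_trichotomy s 0 with h | h | h
  · obtain ⟨t, rfl⟩ : ∃ t : ℕ, s = -(t : ℤ) := ⟨s.natAbs, by omega⟩
    have h1 : 1 ≤ t := by omega
    have h2 : t < (e + 1 - 2 * k) * 2 ^ (k.divisors.card + 1) := by
      rw [abs_neg, Nat.abs_cast] at hs
      exact_mod_cast hs
    have h3 := (f3_pos ρ k e m t hρ hk he hm h1 h2).neg
    have h4 : ((-(t : ℤ) : ℤ) : ℚ) / ((m : ℚ) * (ρ : ℚ) ^ e) =
        -((t : ℚ) / ((m : ℚ) * (ρ : ℚ) ^ e)) := by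
      push_cast; ring
    rw [h4]
    exact h3
  · subst h
    simp only [Int.cast_zero, zero_div]
    exact isRelationNumber_zero
  · obtain ⟨t, rfl⟩ : ∃ t : ℕ, s = (t : ℤ) := ⟨s.natAbs, by omega⟩
    have h1 : 1 ≤ t := by omega
    have h2 : t < (e + 1 - 2 * k) * 2 ^ (k.divisors.card + 1) := by
      rw [Nat.abs_cast] at hs
      exact_mod_cast hs
    have h3 := f3_pos ρ k e m t hρ hk he hm h1 h2
    rw [Int.cast_natCast]
    exact h3

end Pool.Agent.H51F
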