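import Mathlib
import Pool.Agent.Lib.H51F.F3

/-!
# MP_0b7af4_al (owner helper51): the choice of `k` (a primorial)
-/

set_option autoImplicit false

namespace Pool.Agent.H51F

open Finset Filter Topology Pool.Agent.H78.Farbman

theorem f4_real (c : ℝ) (hc : c < Real.log 2) : ∀ᶠ L : ℝ in atTop,
    c * L / Real.log L ≤ Real.log (Real.log 2) + Real.log 2 *
      ((L - Real.log 4 - Real.log 3 - Real.log L) / (Real.log 2 + Real.log L)) := by
  have hlog : Tendsto Real.log atTop atTop := Real.tendsto_log_atTop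
  have h0 : Tendsto (fun L : ℝ => Real.log L / L) atTop (𝓝 0) := by
    have := Real.isLittleO_log_id_atTop.tendsto_div_nhds_zero
    exact this
  have h1 : Tendsto (fun L : ℝ => (Real.log 4 + Real.log 3) / L) atTop (𝓝 0) :=
    tendsto_const_nhds.div_atTop tendsto_id
  have h2 : Tendsto (fun L : ℝ => Real.log 2 / (Real.log 2 + Real.log L)) atTop (𝓝 0) :=
    tendsto_const_nhds.div_atTop (tendsto_atTop_add_const_left _ _ hlog)
  have h3 : Tendsto (fun L : ℝ => Real.log (Real.log 2) * (Real.log L / L) + Real.log 2 *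
      ((1 - (Real.log 4 + Real.log 3) / L - Real.log L / L) *
        (1 - Real.log 2 / (Real.log 2 + Real.log L)))) atTop
      (𝓝 (Real.log (Real.log 2) * 0 + Real.log 2 * ((1 - 0 - 0) * (1 - 0)))) :=
    (h0.const_mul _).add ((((tendsto_const_nhds.sub h1).sub h0).mul
      (tendsto_const_nhds.sub h2)).const_mul _)
  have h4 : Real.log (Real.log 2) * 0 + Real.log 2 * ((1 - 0 - 0) * (1 - 0)) = Real.log 2 := by
    ring
  rw [h4] at h3
  filter_upwards [h3.eventually (lt_mem_nhds hc), hlog.eventually (eventually_gt_atTop 0),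
    eventually_gt_atTop 0] with L g1 g2 g3
  have hl2 : 0 < Real.log 2 := Real.log_pos (by norm_num)
  have g4 : 0 < Real.log 2 + Real.log L := by positivity
  have g5 : 0 < L / Real.log L := by positivity
  have g6 := mul_lt_mul_of_pos_right g1 g5
  have g7 : c * L / Real.log L = c * (L / Real.log L) := by ring
  rw [g7]
  refine g6.le.trans (le_of_eq ?_)
  field_simp
  ring

theorem f4_theta : ∀ᶠ n : ℕ in atTop, (n : ℝ) / 2 ≤ Chebyshev.theta n := by
  have hlog : Tendsto Real.log atTop atTop := Real.tendsto_log_atTop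
  have h0 : Tendsto (fun x : ℝ => Real.log x / x) atTop (𝓝 0) := by
    have := Real.isLittleO_log_id_atTop.tendsto_div_nhds_zero
    exact this
  have h1 : Tendsto (fun x : ℝ => Real.log 2 / x) atTop (𝓝 0) :=
    tendsto_const_nhds.div_atTop tendsto_id
  have h2 : Tendsto (fun x : ℝ => Real.log x / √x) atTop (𝓝 0) := by
    have h3 := (isLittleO_log_rpow_atTop (r := 1 / 2) (by norm_num)).tendsto_div_nhds_zero
    refine h3.congr fun x => ?_
    rw [Real.sqrt_eq_rpow]
  have h3 : Tendsto (fun x : ℝ => Real.log 2 / x + Real.log x / x + 2 * (Real.log x / √x)) atTop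
      (𝓝 (0 + 0 + 2 * 0)) := (h1.add h0).add (h2.const_mul 2)
  have h4 : (0 : ℝ) + 0 + 2 * 0 < 1 / 10 := by norm_num
  have h5 := (tendsto_natCast_atTop_atTop (R := ℝ)).eventually
    ((h3.eventually (gt_mem_nhds h4)).and (eventually_ge_atTop 1))
  filter_upwards [h5] with n hn
  obtain ⟨g1, g2⟩ := hn
  have hn0 : (0 : ℝ) < n := by linarith
  have g3 := Chebyshev.theta_ge n
  have g4 : Real.log ((n : ℝ) + 1) ≤ Real.log 2 + Real.log n := by
    rw [← Real.log_mul (by norm_num) hn0.ne']
    apply Real.log_le_log (by linarith)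
    linarith
  have hs : √(n : ℝ) * √(n : ℝ) = n := Real.mul_self_sqrt hn0.le
  have hs0 : 0 < √(n : ℝ) := Real.sqrt_pos.2 hn0
  have g5 : (Real.log 2 / n + Real.log n / n + 2 * (Real.log n / √n)) * n =
      Real.log 2 + Real.log n + 2 * √n * Real.log n := by
    have e1 : Real.log n / √n * n = √n * Real.log n := by
      rw [div_mul_eq_mul_div, div_eq_iff hs0.ne']
      calc Real.log n * n = Real.log n * (√n * √n) := by rw [hs]
        _ = √n * Real.log n * √n := by ring
    have e2 : Real.log 2 / (n : ℝ) * n = Real.log 2 := by field_simp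
    have e3 : Real.log n / (n : ℝ) * n = Real.log n := by field_simp
    calc (Real.log 2 / n + Real.log n / n + 2 * (Real.log n / √n)) * n =
        Real.log 2 / (n : ℝ) * n + Real.log n / (n : ℝ) * n + 2 * (Real.log n / √n * n) := by ring
      _ = _ := by rw [e1, e2, e3]; ring
  have g6 := mul_lt_mul_of_pos_right g1 hn0
  rw [g5] at g6
  have g7 : (0.6931 : ℝ) < Real.log 2 := by
    have := Real.log_two_gt_d9
    linarith
  have g8 : (n : ℝ) * 0.6931 ≤ n * Real.log 2 := mul_le_mul_of_nonneg_left g7.le hn0.le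
  linarith

theorem f4_choice (e : ℕ) (he : 4 ≤ e) : ∃ n : ℕ, 1 ≤ n ∧ 4 * primorial n ≤ e ∧
    e < 4 * (primorial n * (n + 1)) := by
  classical
  have hex : ∃ j : ℕ, e < 4 * primorial j := by
    refine ⟨e + 3, ?_⟩
    have := lt_primorial_self (n := e + 3) (by omega)
    omega
  have h1 := Nat.find_spec hex
  have h2 : ∀ j < Nat.find hex, ¬ e < 4 * primorial j := fun j hj => Nat.find_min hex hj
  set j0 := Nat.find hex with hj0
  have hj1 : 2 ≤ j0 := by
    by_contra hcon
    have h3 : j0 = 0 ∨ j0 = 1 := by omega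
    rcases h3 with h3 | h3
    · rw [h3, primorial_zero] at h1
      omega
    · rw [h3, primorial_one] at h1
      omega
  obtain ⟨n, hn⟩ : ∃ n, j0 = n + 1 := ⟨j0 - 1, by omega⟩
  refine ⟨n, by omega, ?_, ?_⟩
  · have := h2 n (by omega)
    omega
  · rw [hn] at h1
    have h3 := primorial_add_le (m := n) (n := 1) (by omega)
    rw [Nat.choose_succ_self_right] at h3
    omega

/-- For every `c < log 2` there is `e₀` such that for all `e ≥ e₀` there is `k ≥ 1` with
`4 k ≤ e` and `exp (exp (c log e / log log e)) ≤ 2 ^ d(k)`. -/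
theorem f4_k (c : ℝ) (hc : c < Real.log 2) : ∃ e₀ : ℕ, ∀ e : ℕ, e₀ ≤ e → ∃ k : ℕ, 1 ≤ k ∧
    4 * k ≤ e ∧ Real.exp (Real.exp (c * Real.log e / Real.log (Real.log e))) ≤
      (2 : ℝ) ^ k.divisors.card := by
  obtain ⟨n₁, hn₁⟩ := eventually_atTop.1 f4_theta
  have hL : Tendsto (fun e : ℕ => Real.log (e : ℝ)) atTop atTop :=
    Real.tendsto_log_atTop.comp tendsto_natCast_atTop_atTop
  have hev := (hL.eventually (f4_real c hc)).and ((hL.eventually
    (eventually_ge_atTop ((n₁ : ℝ) + 1))).and ((hL.eventually (eventually_ge_atTop 2)).and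
    (eventually_ge_atTop 4)))
  obtain ⟨e₀, he₀⟩ := eventually_atTop.1 hev
  refine ⟨e₀, fun e he => ?_⟩
  obtain ⟨g1, g2, g3, g4⟩ := he₀ e he
  obtain ⟨n, hn1, hn2, hn3⟩ := f4_choice e g4
  set L := Real.log (e : ℝ) with hLdef
  have hk0 := primorial_pos n
  refine ⟨primorial n, hk0, hn2, ?_⟩
  have hkR : (0 : ℝ) < (primorial n : ℝ) := by exact_mod_cast hk0
  have hnR : (1 : ℝ) ≤ (n : ℝ) := by exact_mod_cast hn1
  have htheta : Chebyshev.theta n = Real.log (primorial n) := by
    rw [Chebyshev.theta_eq_log_primorial, Nat.floor_natCast]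
  have hl2 : 0 < Real.log 2 := Real.log_pos (by norm_num)
  have hl4 : 0 < Real.log 4 := Real.log_pos (by norm_num)
  -- upper bound for theta
  have h1 : Chebyshev.theta n ≤ L := by
    rw [htheta, hLdef]
    apply Real.log_le_log hkR
    have : primorial n ≤ e := by omega
    exact_mod_cast this
  -- lower bound for theta
  have h2 : L ≤ Real.log 4 + (Chebyshev.theta n + Real.log ((n : ℝ) + 1)) := by
    rw [htheta, ← Real.log_mul hkR.ne' (by linarith), ← Real.log_mul (by norm_num) (by
      have : (0 : ℝ) < (primorial n : ℝ) * ((n : ℝ) + 1) := by positivity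
      exact this.ne'), hLdef]
    apply Real.log_le_log
    · have : 0 < e := by omega
      exact_mod_cast this
    · have h3 : ((e : ℕ) : ℝ) ≤ ((4 * (primorial n * (n + 1)) : ℕ) : ℝ) := by exact_mod_cast hn3.le
      push_cast at h3
      exact h3
  -- `n ≤ 2 L`
  have h3 : (n : ℝ) ≤ 2 * L := by
    rcases le_total n₁ n with h4 | h4
    · have h5 := hn₁ n h4
      linarith
    · have h5 : (n : ℝ) ≤ (n₁ : ℝ) := by exact_mod_cast h4
      linarith
  have hL0 : 0 < L := by linarith
  have h4 : Real.log ((n : ℝ) + 1) ≤ Real.log 3 + Real.log L := by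
    rw [← Real.log_mul (by norm_num) hL0.ne']
    exact Real.log_le_log (by linarith) (by linarith)
  have h5 : Real.log (n : ℝ) ≤ Real.log 2 + Real.log L := by
    rw [← Real.log_mul (by norm_num) hL0.ne']
    exact Real.log_le_log (by linarith) (by linarith)
  have hlL : 0 < Real.log L := Real.log_pos (by linarith)
  have h6 := Chebyshev.theta_le_pi_mul_log n
  have hden : 0 < Real.log 2 + Real.log L := by positivity
  have h7 : (L - Real.log 4 - Real.log 3 - Real.log L) / (Real.log 2 + Real.log L) ≤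
      (Nat.primeCounting n : ℝ) := by
    rw [div_le_iff₀ hden]
    have h8 : (Nat.primeCounting n : ℝ) * Real.log n ≤
        (Nat.primeCounting n : ℝ) * (Real.log 2 + Real.log L) :=
      mul_le_mul_of_nonneg_left h5 (Nat.cast_nonneg _)
    linarith
  have h8 : c * L / Real.log L ≤ Real.log (Real.log 2) +
      Real.log 2 * (Nat.primeCounting n : ℝ) := by
    have h9 := mul_le_mul_of_nonneg_left h7 hl2.le
    linarith
  have h9 : Real.exp (c * L / Real.log L) ≤ Real.log 2 * (2 : ℝ) ^ (Nat.primeCounting n) := by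
    refine (Real.exp_le_exp.2 h8).trans (le_of_eq ?_)
    rw [Real.exp_add, Real.exp_log hl2]
    congr 1
    rw [mul_comm, Real.exp_nat_mul, Real.exp_log (by norm_num)]
  have h10 : Nat.primeCounting n = (primorial n).primeFactors.card := by
    rw [primeFactors_primorial, Nat.primesLE_card_eq_primeCounting]
  have h11 : 2 ^ (Nat.primeCounting n) ≤ (primorial n).divisors.card := by
    rw [h10]
    exact f2_two_pow _ hk0.ne'
  calc Real.exp (Real.exp (c * L / Real.log L)) ≤
      Real.exp (Real.log 2 * (2 : ℝ) ^ (Nat.primeCounting n)) := Real.exp_le_exp.2 h9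
    _ = (2 : ℝ) ^ (2 ^ (Nat.primeCounting n)) := by
      have h12 : (2 : ℝ) ^ (Nat.primeCounting n) = ((2 ^ (Nat.primeCounting n) : ℕ) : ℝ) := by
        push_cast; rfl
      rw [h12, mul_comm, Real.exp_nat_mul, Real.exp_log (by norm_num)]
    _ ≤ (2 : ℝ) ^ (primorial n).divisors.card := pow_le_pow_right₀ (by norm_num) h11

/-- Part (2). -/
theorem f4_main (c : ℝ) (hc : c < Real.log 2) : ∃ e₀ : ℕ, ∀ e : ℕ, e₀ ≤ e → ∀ ρ m : ℕ, 2 ≤ ρ →
    1 ≤ m → ∀ s : ℤ, |(s : ℝ)| ≤ Real.exp (Real.exp (c * Real.log e / Real.log (Real.log e))) →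
    IsRelationNumber ((s : ℚ) / ((m : ℚ) * (ρ : ℚ) ^ e)) := by
  obtain ⟨e₀, he₀⟩ := f4_k c hc
  refine ⟨e₀, fun e he ρ m hρ hm s hs => ?_⟩
  obtain ⟨k, hk, hke, hk2⟩ := he₀ e he
  refine f3_main ρ k e m hρ hk (by omega) hm s ?_
  have h1 : |(s : ℝ)| ≤ (2 : ℝ) ^ k.divisors.card := hs.trans hk2
  have h2 : |s| ≤ 2 ^ k.divisors.card := by exact_mod_cast h1
  refine lt_of_le_of_lt h2 ?_
  have h3 : (1 : ℤ) ≤ ((e + 1 - 2 * k : ℕ) : ℤ) := by omega
  have h4 : (2 : ℤ) ^ k.divisors.card < 2 ^ (k.divisors.card + 1) :=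
    pow_lt_pow_right₀ (by norm_num) (by omega)
  exact h4.trans_le (le_mul_of_one_le_left (by positivity) h3)

end Pool.Agent.H51F
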