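import Mathlib
import Pool.Agent.Lib.H73F.C4
import Pool.Agent.H78.Farbman.Diag

/-!
# MP_0b7af4_al (owner helper51): the divisor criterion

Points `(X / (t a), 1 / t)`, `t ∣ r ^ J`, `a ∈ D`, `X ∈ Z`; labels `(t, (r / a) X mod s)` and
`(t a, X, a mod X)`.
-/

set_option autoImplicit false

namespace Pool.Agent.H51F

open Finset Filter Topology Pool.Agent.H78.Farbman Pool.Agent.H73F

/-- the vectors -/
def gvec (p : ℕ × ℕ × ℤ) : ℚ × ℚ :=
  ((p.2.2 : ℚ) / ((p.1 : ℚ) * (p.2.1 : ℚ)), 1 / (p.1 : ℚ))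

/-- the labels for the upper unipotents -/
def glabA (r s : ℕ) (p : ℕ × ℕ × ℤ) : ℕ × ℤ :=
  (p.1, (((r / p.2.1 : ℕ) : ℤ) * p.2.2) % (s : ℤ))

/-- the labels for the lower unipotents -/
def glabB (p : ℕ × ℕ × ℤ) : ℕ × ℤ × ℤ :=
  (p.1 * p.2.1, p.2.2, (p.2.1 : ℤ) % p.2.2)

theorem g1_inj (T D : Finset ℕ) (Z : Finset ℤ) (hT : ∀ t ∈ T, 1 ≤ t) (hD1 : ∀ a ∈ D, 1 ≤ a)
    (hZ : ∀ X ∈ Z, ∀ a ∈ D, IsCoprime X (a : ℤ)) :
    Set.InjOn gvec ((T ×ˢ (D ×ˢ Z) : Finset (ℕ × ℕ × ℤ)) : Set _) := by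
  rintro ⟨t, a, X⟩ hp ⟨t', a', X'⟩ hp' he
  rw [mem_coe, mem_product, mem_product] at hp hp'
  simp only at hp hp'
  obtain ⟨ht, ha, hX⟩ := hp
  obtain ⟨ht', ha', hX'⟩ := hp'
  have ht1 := hT t ht
  have ht1' := hT t' ht'
  have ha1 := hD1 a ha
  have ha1' := hD1 a' ha'
  simp only [gvec, Prod.mk.injEq] at he
  obtain ⟨h1, h2⟩ := he
  have htt : t = t' := by
    have h3 := congrArg (fun q : ℚ => 1 / q) h2
    simp only [one_div, inv_inv] at h3
    exact_mod_cast h3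
  subst htt
  have htq : (t : ℚ) ≠ 0 := by
    have : t ≠ 0 := by omega
    exact_mod_cast this
  have haq : (a : ℚ) ≠ 0 := by
    have : a ≠ 0 := by omega
    exact_mod_cast this
  have haq' : (a' : ℚ) ≠ 0 := by
    have : a' ≠ 0 := by omega
    exact_mod_cast this
  have h3 : (X : ℚ) * a' = X' * a := by
    rw [div_eq_div_iff (mul_ne_zero htq haq) (mul_ne_zero htq haq')] at h1
    have h4 : ((X : ℚ) * a') * t = (X' * a) * t := by linear_combination h1
    exact mul_right_cancel₀ htq h4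
  have h4 : X * (a' : ℤ) = X' * (a : ℤ) := by exact_mod_cast h3
  have h5 : (a : ℤ) ∣ (a' : ℤ) :=
    (hZ X hX a ha).symm.dvd_of_dvd_mul_left ⟨X', by rw [h4]; ring⟩
  have h6 : (a' : ℤ) ∣ (a : ℤ) :=
    (hZ X' hX' a' ha').symm.dvd_of_dvd_mul_left ⟨X, by rw [← h4]; ring⟩
  have h7 : a = a' := Nat.dvd_antisymm (by exact_mod_cast h5) (by exact_mod_cast h6)
  subst h7
  have h8 : X = X' := by
    have h9 : (a : ℤ) ≠ 0 := by omega
    exact mul_right_cancel₀ h9 h4
  rw [h8]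

theorem g1_labA (r s : ℕ) (hr : 1 ≤ r) (T D : Finset ℕ) (Z : Finset ℤ) (hT : ∀ t ∈ T, 1 ≤ t)
    (hD : ∀ a ∈ D, a ∣ r)
    (p p' : ℕ × ℕ × ℤ) (hp : p ∈ T ×ˢ (D ×ˢ Z)) (hp' : p' ∈ T ×ˢ (D ×ˢ Z))
    (he : glabA r s p = glabA r s p') :
    (gvec p').2 = (gvec p).2 ∧ ∃ M : ℤ, (gvec p').1 = (gvec p).1 +
      (M : ℚ) * ((s : ℚ) / (r : ℚ)) * (gvec p).2 := by
  obtain ⟨t, a, X⟩ := p
  obtain ⟨t', a', X'⟩ := p'
  rw [mem_product, mem_product] at hp hp'
  simp only at hp hp'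
  simp only [glabA, Prod.mk.injEq] at he
  obtain ⟨rfl, he⟩ := he
  refine ⟨rfl, ?_⟩
  obtain ⟨ht, ha, hX⟩ := hp
  obtain ⟨_, ha', hX'⟩ := hp'
  have ht1 := hT t ht
  obtain ⟨b, hb⟩ := hD a ha
  obtain ⟨b', hb'⟩ := hD a' ha'
  have ha0 : 0 < a := Nat.pos_of_ne_zero (by rintro rfl; omega)
  have ha0' : 0 < a' := Nat.pos_of_ne_zero (by rintro rfl; omega)
  have e1 : r / a = b := by rw [hb]; exact Nat.mul_div_cancel_left b ha0
  have e2 : r / a' = b' := by rw [hb']; exact Nat.mul_div_cancel_left b' ha0'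
  rw [e1, e2] at he
  obtain ⟨M, hM⟩ : (s : ℤ) ∣ (b' : ℤ) * X' - (b : ℤ) * X := Int.ModEq.dvd he
  refine ⟨M, ?_⟩
  have hM' : (b' : ℚ) * X' - (b : ℚ) * X = s * M := by exact_mod_cast hM
  simp only [gvec]
  have htq : (t : ℚ) ≠ 0 := by
    have : t ≠ 0 := by omega
    exact_mod_cast this
  have hrq : (r : ℚ) ≠ 0 := by
    have : r ≠ 0 := by omega
    exact_mod_cast this
  have haq : (a : ℚ) ≠ 0 := by exact_mod_cast ha0.ne'
  have haq' : (a' : ℚ) ≠ 0 := by exact_mod_cast ha0'.ne'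
  have hbq : (r : ℚ) = a * b := by exact_mod_cast hb
  have hbq' : (r : ℚ) = a' * b' := by exact_mod_cast hb'
  have a1 : (X : ℚ) / (t * a) = (b * X) / (t * r) := by
    rw [div_eq_div_iff (mul_ne_zero htq haq) (mul_ne_zero htq hrq), hbq]
    ring
  have a2 : (X' : ℚ) / (t * a') = (b' * X') / (t * r) := by
    rw [div_eq_div_iff (mul_ne_zero htq haq') (mul_ne_zero htq hrq), hbq']
    ring
  rw [a1, a2]
  have h3 : (b' : ℚ) * X' = b * X + s * M := by linarith
  rw [h3]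
  field_simp

theorem g1_labB (T D : Finset ℕ) (Z : Finset ℤ) (hT : ∀ t ∈ T, 1 ≤ t) (hD1 : ∀ a ∈ D, 1 ≤ a)
    (p p' : ℕ × ℕ × ℤ) (hp : p ∈ T ×ˢ (D ×ˢ Z)) (hp' : p' ∈ T ×ˢ (D ×ˢ Z))
    (he : glabB p = glabB p') :
    (gvec p').1 = (gvec p).1 ∧ ∃ M : ℤ, (gvec p').2 = (gvec p).2 +
      (M : ℚ) * (gvec p).1 := by
  obtain ⟨t, a, X⟩ := p
  obtain ⟨t', a', X'⟩ := p'
  rw [mem_product, mem_product] at hp hp'
  simp only at hp hp'
  simp only [glabB, Prod.mk.injEq] at he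
  obtain ⟨hR, rfl, he⟩ := he
  obtain ⟨ht, ha, hX⟩ := hp
  obtain ⟨ht', ha', _⟩ := hp'
  have ht1 := hT t ht
  have ht1' := hT t' ht'
  have ha1 := hD1 a ha
  have ha1' := hD1 a' ha'
  have htq : (t : ℚ) ≠ 0 := by
    have : t ≠ 0 := by omega
    exact_mod_cast this
  have htq' : (t' : ℚ) ≠ 0 := by
    have : t' ≠ 0 := by omega
    exact_mod_cast this
  have haq : (a : ℚ) ≠ 0 := by
    have : a ≠ 0 := by omega
    exact_mod_cast this
  have haq' : (a' : ℚ) ≠ 0 := by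
    have : a' ≠ 0 := by omega
    exact_mod_cast this
  have hRq : (t : ℚ) * a = t' * a' := by exact_mod_cast hR
  simp only [gvec]
  rw [← hRq]
  refine ⟨rfl, ?_⟩
  obtain ⟨M, hM⟩ : X ∣ (a' : ℤ) - (a : ℤ) := Int.ModEq.dvd he
  refine ⟨M, ?_⟩
  have hM' : (a' : ℚ) = a + X * M := by
    have : (a' : ℚ) - a = X * M := by exact_mod_cast hM
    linarith
  have b1 : (1 : ℚ) / t = a / (t * a) := by
    rw [div_eq_div_iff htq (mul_ne_zero htq haq)]
    ring
  have b2 : (1 : ℚ) / t' = a' / (t * a) := by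
    rw [hRq, div_eq_div_iff htq' (mul_ne_zero htq' haq')]
    ring
  rw [b1, b2, hM']
  ring

theorem g1_card (r J : ℕ) (hr : r ≠ 0) (hJ : J ≠ 0) :
    (r ^ J).divisors.card = ∏ p ∈ r.primeFactors, (J * r.factorization p + 1) := by
  rw [Nat.card_divisors (pow_ne_zero J hr), Nat.primeFactors_pow r hJ]
  refine prod_congr rfl fun p _ => ?_
  rw [Nat.factorization_pow]
  simp

theorem g1_growth (r G : ℕ) (hr : 1 ≤ r) : ∃ J : ℕ,
    (r ^ (J + 1)).divisors.card * G < (r ^ J).divisors.card * (G + 1) := by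
  have hr0 : r ≠ 0 := by omega
  have h1 : ∀ p ∈ r.primeFactors, Tendsto (fun J : ℕ =>
      (((J + 1 : ℕ) : ℝ) * r.factorization p + 1) / ((J : ℝ) * r.factorization p + 1))
      atTop (𝓝 1) := by
    intro p hp
    have he : 0 < r.factorization p :=
      (Nat.prime_of_mem_primeFactors hp).factorization_pos_of_dvd hr0
        (Nat.dvd_of_mem_primeFactors hp)
    have heR : (0 : ℝ) < (r.factorization p : ℝ) := by exact_mod_cast he
    have h2 : Tendsto (fun J : ℕ => (J : ℝ) * r.factorization p + 1) atTop atTop :=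
      tendsto_atTop_add_const_right _ _ (tendsto_natCast_atTop_atTop.atTop_mul_const heR)
    have h3 : Tendsto (fun J : ℕ => (r.factorization p : ℝ) / ((J : ℝ) * r.factorization p + 1))
        atTop (𝓝 0) := tendsto_const_nhds.div_atTop h2
    have h4 := h3.const_add 1
    rw [add_zero] at h4
    refine h4.congr fun J => ?_
    have h5 : (0 : ℝ) < (J : ℝ) * r.factorization p + 1 := by positivity
    field_simp
    push_cast
    ring
  have h2 := tendsto_finsetProd r.primeFactors h1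
  rw [prod_const_one] at h2
  have h3 : (1 : ℝ) < (G + 1) / (G + 1 / 2) := by
    rw [lt_div_iff₀ (by positivity)]
    linarith
  obtain ⟨J, hJ, hJ1⟩ := ((h2.eventually (gt_mem_nhds h3)).and (eventually_ge_atTop 1)).exists
  refine ⟨J, ?_⟩
  rw [g1_card r J hr0 (by omega), g1_card r (J + 1) hr0 (by omega)]
  rw [prod_div_distrib] at hJ
  have hpos : (0 : ℝ) < ∏ p ∈ r.primeFactors, ((J : ℝ) * r.factorization p + 1) :=
    prod_pos fun p _ => by positivity
  have hpos' : (0 : ℝ) < ∏ p ∈ r.primeFactors, (((J + 1 : ℕ) : ℝ) * r.factorization p + 1) :=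
    prod_pos fun p _ => by positivity
  rw [div_lt_div_iff₀ hpos (by positivity)] at hJ
  have h4 : (((∏ p ∈ r.primeFactors, ((J + 1) * r.factorization p + 1) : ℕ) : ℝ)) * G <
      ((∏ p ∈ r.primeFactors, (J * r.factorization p + 1) : ℕ) : ℝ) * (G + 1) := by
    push_cast at hJ ⊢
    push_cast at hpos'
    nlinarith
  exact_mod_cast h4

/-- THE DIVISOR CRITERION. -/
theorem g1_crit (r s : ℕ) (hr : 1 ≤ r) (hs : 1 ≤ s) (D : Finset ℕ) (hD : ∀ a ∈ D, a ∣ r)
    (Z : Finset ℤ) (hZ : ∀ X ∈ Z, ∀ a ∈ D, IsCoprime X (a : ℤ))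
    (h : s + ∑ X ∈ Z, (D.image (fun a : ℕ => (a : ℤ) % X)).card < D.card * Z.card) :
    IsRelationNumber ((s : ℚ) / (r : ℚ)) := by
  classical
  by_contra hq
  have hD1 : ∀ a ∈ D, 1 ≤ a := fun a ha => Nat.pos_of_dvd_of_pos (hD a ha) hr
  have main : ∀ J : ℕ, (r ^ J).divisors.card * (D.card * Z.card) ≤ (r ^ J).divisors.card * s +
      (r ^ (J + 1)).divisors.card * ∑ X ∈ Z, (D.image (fun a : ℕ => (a : ℤ) % X)).card := by
    intro J
    set T := (r ^ J).divisors with hTdef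
    have hT : ∀ t ∈ T, 1 ≤ t := fun t ht => Nat.pos_of_mem_divisors ht
    set P : Finset (ℕ × ℕ × ℤ) := T ×ˢ (D ×ˢ Z) with hP
    have h1 := c4_crit ((s : ℚ) / (r : ℚ)) hq P gvec (by
      rintro ⟨t, a, X⟩ hp he
      have h2 := congrArg Prod.snd he
      simp only [gvec] at h2
      rw [hP, mem_product] at hp
      have h0 : (t : ℚ) ≠ 0 := by
        have h3 := hT t hp.1
        have : t ≠ 0 := by omega
        exact_mod_cast this
      exact (one_div_ne_zero h0) h2)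
      (g1_inj T D Z hT hD1 hZ) (glabA r s) glabB
      (fun p hp p' hp' he => g1_labA r s hr T D Z hT hD p p' hp hp' he)
      (fun p hp p' hp' he => g1_labB T D Z hT hD1 p p' hp hp' he)
    have hPc : P.card = T.card * (D.card * Z.card) := by
      rw [hP, card_product, card_product]
    have hA : ∀ inst : DecidableEq (ℕ × ℤ),
        (@Finset.image _ _ inst (glabA r s) P).card ≤ T.card * s := by
      intro inst
      have hsub : @Finset.image _ _ inst (glabA r s) P ⊆ T ×ˢ Finset.Ico (0 : ℤ) (s : ℤ) := by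
        intro q hq'
        rw [mem_image] at hq'
        obtain ⟨⟨t, a, X⟩, hp, rfl⟩ := hq'
        rw [hP, mem_product] at hp
        rw [mem_product]
        refine ⟨hp.1, ?_⟩
        rw [Finset.mem_Ico]
        have hs0 : (0 : ℤ) < (s : ℤ) := by exact_mod_cast hs
        exact ⟨Int.emod_nonneg _ hs0.ne', Int.emod_lt_of_pos _ hs0⟩
      refine (card_le_card hsub).trans ?_
      rw [card_product, Int.card_Ico]
      simp
    have hB : ∀ inst : DecidableEq (ℕ × ℤ × ℤ),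
        (@Finset.image _ _ inst glabB P).card ≤ (r ^ (J + 1)).divisors.card *
        ∑ X ∈ Z, (D.image (fun a : ℕ => (a : ℤ) % X)).card := by
      intro inst
      have hsub : @Finset.image _ _ inst glabB P ⊆ (r ^ (J + 1)).divisors ×ˢ (Z.biUnion fun X =>
          (D.image (fun a : ℕ => (a : ℤ) % X)).image (fun d => (X, d))) := by
        intro q hq'
        rw [mem_image] at hq'
        obtain ⟨⟨t, a, X⟩, hp, rfl⟩ := hq'
        rw [hP, mem_product, mem_product] at hp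
        simp only at hp
        rw [mem_product]
        refine ⟨?_, ?_⟩
        · simp only [glabB]
          rw [Nat.mem_divisors]
          refine ⟨?_, pow_ne_zero _ (by omega)⟩
          rw [pow_succ]
          exact Nat.mul_dvd_mul (Nat.dvd_of_mem_divisors hp.1) (hD a hp.2.1)
        · rw [mem_biUnion]
          refine ⟨X, hp.2.2, ?_⟩
          rw [mem_image]
          refine ⟨(a : ℤ) % X, ?_, rfl⟩
          rw [mem_image]
          exact ⟨a, hp.2.1, rfl⟩
      refine (card_le_card hsub).trans ?_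
      rw [card_product]
      refine Nat.mul_le_mul_left _ ?_
      refine card_biUnion_le.trans (sum_le_sum fun X _ => ?_)
      exact card_image_le
    rw [hPc] at h1
    exact h1.trans (Nat.add_le_add (hA _) (hB _))
  obtain ⟨J, hJ⟩ := g1_growth r (∑ X ∈ Z, (D.image (fun a : ℕ => (a : ℤ) % X)).card) hr
  have h2 := main J
  generalize (∑ X ∈ Z, (D.image (fun a : ℕ => (a : ℤ) % X)).card) = G at *
  generalize D.card * Z.card = c at *
  have h3 : (r ^ J).divisors.card * (s + G + 1) ≤ (r ^ J).divisors.card * c :=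
    Nat.mul_le_mul_left _ (by omega)
  nlinarith

/-- The divisor criterion for integers `s` of both signs. -/
theorem g1_main (r : ℕ) (hr : 1 ≤ r) (s : ℤ) (D : Finset ℕ) (hD : ∀ a ∈ D, a ∣ r)
    (Z : Finset ℤ) (hZ : ∀ X ∈ Z, ∀ a ∈ D, IsCoprime X (a : ℤ))
    (h : |s| + ((∑ X ∈ Z, (D.image (fun a : ℕ => (a : ℤ) % X)).card : ℕ) : ℤ) <
      ((D.card * Z.card : ℕ) : ℤ)) :
    IsRelationNumber ((s : ℚ) / (r : ℚ)) := by
  rcases lt_trichotomy s 0 with h0 | h0 | h0
  · obtain ⟨t, rfl⟩ : ∃ t : ℕ, s = -(t : ℤ) := ⟨s.natAbs, by omega⟩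
    rw [abs_neg, Nat.abs_cast] at h
    have h3 := (g1_crit r t hr (by omega) D hD Z hZ (by exact_mod_cast h)).neg
    have h4 : ((-(t : ℤ) : ℤ) : ℚ) / (r : ℚ) = -((t : ℚ) / (r : ℚ)) := by
      push_cast; ring
    rw [h4]
    exact h3
  · subst h0
    simp only [Int.cast_zero, zero_div]
    exact isRelationNumber_zero
  · obtain ⟨t, rfl⟩ : ∃ t : ℕ, s = (t : ℤ) := ⟨s.natAbs, by omega⟩
    rw [Nat.abs_cast] at h
    have h3 := g1_crit r t hr (by omega) D hD Z hZ (by exact_mod_cast h)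
    rw [Int.cast_natCast]
    exact h3

end Pool.Agent.H51F
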