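import Mathlib
import Pool.Agent.Lib.H51F.G1
import Pool.Agent.Lib.H51F.F4

/-!
# MP_0b7af4_al (owner helper51): numerators up to `d(r)^2 / (3 log d(r))`
-/

set_option autoImplicit false

namespace Pool.Agent.H51F

open Finset Filter Topology Pool.Agent.H78.Farbman

theorem g2_primes (R r x : ℕ) (hR : 1 ≤ R) (hrR : r ∣ R) (s : ℤ) (q : ℕ)
    (hq : q + r.primeFactors.card ≤ Nat.primeCounting x)
    (hx : x ≤ r.divisors.card)
    (hs : |s| < 2 * ((q : ℤ) * ((r.divisors.card : ℤ) - (x : ℤ)))) :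
    IsRelationNumber ((s : ℚ) / (R : ℚ)) := by
  classical
  have hr : 1 ≤ r := Nat.pos_of_dvd_of_pos hrR hR
  set Q : Finset ℕ := Nat.primesLE x \ r.primeFactors with hQ
  have hQc : q ≤ Q.card := by
    have h1 : (Nat.primesLE x).card - r.primeFactors.card ≤ Q.card :=
      le_card_sdiff r.primeFactors (Nat.primesLE x)
    rw [Nat.primesLE_card_eq_primeCounting] at h1
    omega
  have hQp : ∀ p ∈ Q, p.Prime ∧ p ≤ x ∧ ¬ p ∣ r := by
    intro p hp
    rw [hQ, Finset.mem_sdiff, Nat.mem_primesLE] at hp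
    obtain ⟨⟨h1, h2⟩, h3⟩ := hp
    refine ⟨h2, h1, fun h4 => h3 ?_⟩
    rw [Nat.mem_primeFactors]
    exact ⟨h2, h4, by omega⟩
  set A : Finset ℤ := Q.image (fun y : ℕ => (y : ℤ)) with hA
  set B : Finset ℤ := Q.image (fun y : ℕ => -(y : ℤ)) with hB
  have hAc : A.card = Q.card := by
    rw [hA]
    apply card_image_of_injective
    intro a b h
    simpa using h
  have hBc : B.card = Q.card := by
    rw [hB]
    apply card_image_of_injective
    intro a b h
    simpa using h
  have hAB : Disjoint A B := by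
    rw [Finset.disjoint_left]
    intro y hy hy'
    rw [hA, mem_image] at hy
    rw [hB, mem_image] at hy'
    obtain ⟨a, ha, rfl⟩ := hy
    obtain ⟨b, hb, h⟩ := hy'
    have h1 := (hQp a ha).1.pos
    have h2 := (hQp b hb).1.pos
    omega
  have hZc : (A ∪ B).card = 2 * Q.card := by
    rw [card_union_of_disjoint hAB, hAc, hBc]; ring
  have hZ : ∀ X ∈ A ∪ B, ∃ p ∈ Q, X = (p : ℤ) ∨ X = -(p : ℤ) := by
    intro X hX
    rw [mem_union, hA, hB, mem_image, mem_image] at hX
    rcases hX with ⟨a, ha, rfl⟩ | ⟨a, ha, rfl⟩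
    · exact ⟨a, ha, Or.inl rfl⟩
    · exact ⟨a, ha, Or.inr rfl⟩
  refine g1_main R hR s r.divisors (fun a ha => (Nat.dvd_of_mem_divisors ha).trans hrR)
    (A ∪ B) ?_ ?_
  · intro X hX a ha
    obtain ⟨p, hp, hXp⟩ := hZ X hX
    obtain ⟨h1, h2, h3⟩ := hQp p hp
    have h4 : Nat.Coprime p a :=
      ((Nat.Prime.coprime_iff_not_dvd h1).2 fun h5 => h3 (h5.trans (Nat.dvd_of_mem_divisors ha)))
    have h5 : IsCoprime (p : ℤ) (a : ℤ) := Nat.isCoprime_iff_coprime.2 h4
    rcases hXp with rfl | rfl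
    · exact h5
    · exact h5.neg_left
  · have h1 : ∑ X ∈ A ∪ B, (r.divisors.image (fun a : ℕ => (a : ℤ) % X)).card ≤
        (A ∪ B).card * x := by
      refine sum_le_card_nsmul _ _ _ ?_
      intro X hX
      obtain ⟨p, hp, hXp⟩ := hZ X hX
      obtain ⟨h1, h2, h3⟩ := hQp p hp
      have hX0 : X ≠ 0 := by
        have := h1.pos
        omega
      have hXa : |X| = (p : ℤ) := by
        rcases hXp with rfl | rfl
        · exact Nat.abs_cast p
        · rw [abs_neg]; exact Nat.abs_cast p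
      have hsub : r.divisors.image (fun a : ℕ => (a : ℤ) % X) ⊆ Finset.Ico (0 : ℤ) (p : ℤ) := by
        intro y hy
        rw [mem_image] at hy
        obtain ⟨a, _, rfl⟩ := hy
        rw [Finset.mem_Ico]
        refine ⟨Int.emod_nonneg _ hX0, ?_⟩
        rw [← hXa]
        exact Int.emod_lt_abs _ hX0
      refine (card_le_card hsub).trans ?_
      rw [Int.card_Ico]
      omega
    have h2 : |s| + ((A ∪ B).card * x : ℕ) < ((r.divisors.card * (A ∪ B).card : ℕ) : ℤ) := by
      rw [hZc]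
      push_cast
      have h3 : (q : ℤ) * ((r.divisors.card : ℤ) - (x : ℤ)) ≤
          (Q.card : ℤ) * ((r.divisors.card : ℤ) - (x : ℤ)) := by
        apply mul_le_mul_of_nonneg_right
        · exact_mod_cast hQc
        · have : (x : ℤ) ≤ (r.divisors.card : ℤ) := by exact_mod_cast hx
          linarith
      nlinarith
    have h3 : ((∑ X ∈ A ∪ B, (r.divisors.image (fun a : ℕ => (a : ℤ) % X)).card : ℕ) : ℤ) ≤
        (((A ∪ B).card * x : ℕ) : ℤ) := by exact_mod_cast h1
    linarith

theorem g2_real : ∀ᶠ d : ℝ in atTop, d / (3 * Real.log d) + 1 <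
    ((d - 1) / 2 * Real.log 2 - Real.log d) / Real.log d - Real.log d / Real.log 2 := by
  have hlog : Tendsto Real.log atTop atTop := Real.tendsto_log_atTop
  have hl2 : (0.6931 : ℝ) < Real.log 2 := by
    have := Real.log_two_gt_d9
    linarith
  have h0 : Tendsto (fun L : ℝ => Real.log L / L) atTop (𝓝 0) := by
    have := Real.isLittleO_log_id_atTop.tendsto_div_nhds_zero
    exact this
  have h1 : Tendsto (fun L : ℝ => Real.log L ^ 2 / L) atTop (𝓝 0) := by
    have := (Real.isLittleO_pow_log_id_atTop (n := 2)).tendsto_div_nhds_zero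
    exact this
  have h2 : Tendsto (fun L : ℝ => 1 / L) atTop (𝓝 0) := tendsto_const_nhds.div_atTop tendsto_id
  have h3 : Tendsto (fun L : ℝ => (1 - 1 / L) / 2 * Real.log 2 - 2 * (Real.log L / L) -
      Real.log L ^ 2 / L / Real.log 2) atTop
      (𝓝 ((1 - 0) / 2 * Real.log 2 - 2 * 0 - 0 / Real.log 2)) :=
    (((tendsto_const_nhds.sub h2).div_const 2).mul_const _ |>.sub (h0.const_mul 2)).sub
      (h1.div_const _)
  have h4 : (1 : ℝ) / 3 < (1 - 0) / 2 * Real.log 2 - 2 * 0 - 0 / Real.log 2 := by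
    rw [zero_div]
    linarith
  filter_upwards [h3.eventually (lt_mem_nhds h4), hlog.eventually (eventually_gt_atTop 0),
    eventually_gt_atTop 0] with d g1 g2 g3
  have hl20 : 0 < Real.log 2 := by linarith
  have g5 : 0 < d / Real.log d := by positivity
  have g6 := mul_lt_mul_of_pos_right g1 g5
  have e1 : 1 / 3 * (d / Real.log d) = d / (3 * Real.log d) := by
    field_simp
  have e2 : ((1 - 1 / d) / 2 * Real.log 2 - 2 * (Real.log d / d) -
      Real.log d ^ 2 / d / Real.log 2) * (d / Real.log d) =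
      ((d - 1) / 2 * Real.log 2 - Real.log d) / Real.log d - Real.log d / Real.log 2 - 1 := by
    field_simp
    ring
  rw [e1, e2] at g6
  linarith

/-- Part (1). -/
theorem g2_log : ∃ d₀ : ℕ, ∀ r m : ℕ, 1 ≤ r → 1 ≤ m → d₀ ≤ r.divisors.card → ∀ s : ℤ,
    |(s : ℝ)| ≤ (r.divisors.card : ℝ) ^ 2 / (3 * Real.log (r.divisors.card : ℝ)) →
    IsRelationNumber ((s : ℚ) / ((m : ℚ) * (r : ℚ))) := by
  obtain ⟨d₀, hd₀⟩ := eventually_atTop.1 ((tendsto_natCast_atTop_atTop (R := ℝ)).eventually
    g2_real)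
  refine ⟨d₀ + 4, fun r m hr hm hd s hs => ?_⟩
  set d := r.divisors.card with hddef
  have h1 := hd₀ d (by omega)
  have hcast : (m : ℚ) * (r : ℚ) = ((m * r : ℕ) : ℚ) := by push_cast; ring
  rw [hcast]
  have hdR : (4 : ℝ) ≤ (d : ℝ) := by
    have : 4 ≤ d := by omega
    exact_mod_cast this
  have hl2 : 0 < Real.log 2 := Real.log_pos (by norm_num)
  have hld : 0 < Real.log (d : ℝ) := Real.log_pos (by linarith)
  -- `ω(r) ≤ log d / log 2`
  have h2 : (r.primeFactors.card : ℝ) ≤ Real.log d / Real.log 2 := by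
    rw [le_div_iff₀ hl2]
    have h3 := f2_two_pow r (by omega)
    have h4 : ((2 ^ r.primeFactors.card : ℕ) : ℝ) ≤ (d : ℝ) := by exact_mod_cast h3
    have h5 := Real.log_le_log (by positivity) h4
    push_cast at h5
    rw [Real.log_pow] at h5
    exact h5
  set x := d / 2 with hx
  have hx2 : 2 ≤ x := by omega
  have hxd : 2 * x ≤ d := by omega
  have hxd' : d ≤ 2 * x + 1 := by omega
  have hxR : (2 : ℝ) ≤ (x : ℝ) := by exact_mod_cast hx2
  have hxdR : 2 * (x : ℝ) ≤ (d : ℝ) := by exact_mod_cast hxd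
  have hxdR' : (d : ℝ) ≤ 2 * (x : ℝ) + 1 := by exact_mod_cast hxd'
  have h3 := Chebyshev.pi_ge x
  have hlx : 0 < Real.log (x : ℝ) := Real.log_pos (by linarith)
  have h4 : Real.log (x : ℝ) ≤ Real.log d := Real.log_le_log (by linarith) (by linarith)
  have h5 : Real.log ((x : ℝ) + 1) ≤ Real.log d := Real.log_le_log (by linarith) (by linarith)
  have h6 : ((d : ℝ) - 1) / 2 * Real.log 2 - Real.log d ≤ x * Real.log 2 - Real.log ((x : ℝ) + 1) := by
    have h7 : ((d : ℝ) - 1) / 2 * Real.log 2 ≤ x * Real.log 2 :=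
      mul_le_mul_of_nonneg_right (by linarith) hl2.le
    linarith
  have h7 : (((d : ℝ) - 1) / 2 * Real.log 2 - Real.log d) / Real.log d ≤
      (Nat.primeCounting x : ℝ) := by
    rcases le_total 0 (((d : ℝ) - 1) / 2 * Real.log 2 - Real.log d) with h8 | h8
    · refine le_trans ?_ h3
      exact div_le_div₀ (h8.trans h6) h6 hlx h4
    · exact (div_nonpos_of_nonpos_of_nonneg h8 hld.le).trans (Nat.cast_nonneg _)
  have h8 : (d : ℝ) / (3 * Real.log d) + 1 < (Nat.primeCounting x : ℝ) -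
      (r.primeFactors.card : ℝ) := by linarith
  have h9 : 0 ≤ (d : ℝ) / (3 * Real.log d) := by positivity
  have hle : r.primeFactors.card ≤ Nat.primeCounting x := by
    have : (r.primeFactors.card : ℝ) ≤ (Nat.primeCounting x : ℝ) := by linarith
    exact_mod_cast this
  obtain ⟨q, hq⟩ := Nat.exists_eq_add_of_le hle
  have hqR : (d : ℝ) / (3 * Real.log d) + 1 < (q : ℝ) := by
    have : (Nat.primeCounting x : ℝ) = (r.primeFactors.card : ℝ) + q := by exact_mod_cast hq
    linarith
  refine g2_primes (m * r) r x (Nat.mul_pos hm hr) (dvd_mul_left r m) s q (by omega)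
    (by omega) ?_
  have h10 : |(s : ℝ)| < 2 * ((q : ℝ) * ((d : ℝ) - (x : ℝ))) := by
    have h11 : (d : ℝ) ^ 2 / (3 * Real.log d) = (d : ℝ) / (3 * Real.log d) * d := by ring
    rw [h11] at hs
    have h12 : (d : ℝ) ≤ 2 * ((d : ℝ) - x) := by linarith
    have h13 : (d : ℝ) / (3 * Real.log d) * d < (q : ℝ) * d :=
      mul_lt_mul_of_pos_right (by linarith) (by linarith)
    have h14 : (q : ℝ) * d ≤ (q : ℝ) * (2 * ((d : ℝ) - x)) :=
      mul_le_mul_of_nonneg_left h12 (Nat.cast_nonneg _)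
    linarith
  have h11 : ((|s| : ℤ) : ℝ) < ((2 * ((q : ℤ) * ((d : ℤ) - (x : ℤ))) : ℤ) : ℝ) := by
    push_cast
    exact h10
  exact_mod_cast h11

theorem g2_rpow (β : ℝ) (hβ : β < 2) : ∀ᶠ d : ℝ in atTop,
    d ^ β ≤ d ^ 2 / (3 * Real.log d) := by
  have h1 := (isLittleO_log_rpow_atTop (r := 2 - β) (by linarith)).bound
    (show (0 : ℝ) < 1 / 3 by norm_num)
  filter_upwards [h1, eventually_gt_atTop 1] with d g1 g2
  have hl : 0 < Real.log d := Real.log_pos g2
  have hd : 0 < d := by linarith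
  rw [Real.norm_of_nonneg hl.le, Real.norm_of_nonneg (Real.rpow_nonneg hd.le _)] at g1
  rw [le_div_iff₀ (by positivity)]
  have h2 : d ^ β * d ^ (2 - β) = d ^ 2 := by
    rw [← Real.rpow_add hd]
    have : β + (2 - β) = ((2 : ℕ) : ℝ) := by push_cast; ring
    rw [this, Real.rpow_natCast]
  rw [← h2]
  exact mul_le_mul_of_nonneg_left (by linarith) (Real.rpow_nonneg hd.le _)

/-- Part (2). -/
theorem g2_primorial (c : ℝ) (hc : c < 2 * Real.log 2) : ∃ n₀ : ℕ, ∀ n : ℕ, n₀ ≤ n →
    ∀ m : ℕ, 1 ≤ m → ∀ s : ℤ,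
    |(s : ℝ)| ≤ Real.exp (c * Real.log (primorial n) / Real.log (Real.log (primorial n))) →
    IsRelationNumber ((s : ℚ) / ((m : ℚ) * (primorial n : ℚ))) := by
  obtain ⟨d₀, hd₀⟩ := g2_log
  have hl2 : 0 < Real.log 2 := Real.log_pos (by norm_num)
  obtain ⟨c2, hc2, hc2'⟩ := exists_between (a₁ := max (c / 2) 0) (a₂ := Real.log 2)
    (max_lt (by linarith) hl2)
  have hc20 : 0 < c2 := (le_max_right _ _).trans_lt hc2
  have hcc2 : c / 2 < c2 := (le_max_left _ _).trans_lt hc2
  set β := max c 0 / c2 with hβ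
  have hβ0 : 0 ≤ β := div_nonneg (le_max_right _ _) hc20.le
  have hβ2 : β < 2 := by
    rw [hβ, div_lt_iff₀ hc20]
    exact max_lt (by linarith) (by linarith)
  have htheta : ∀ n : ℕ, Chebyshev.theta n = Real.log (primorial n) := fun n => by
    rw [Chebyshev.theta_eq_log_primorial, Nat.floor_natCast]
  have hΘ : Tendsto (fun n : ℕ => Real.log (primorial n : ℝ)) atTop atTop := by
    refine tendsto_atTop_mono' _ ?_
      ((tendsto_natCast_atTop_atTop (R := ℝ)).atTop_div_const (show (0 : ℝ) < 2 by norm_num))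
    filter_upwards [f4_theta] with n hn
    rw [← htheta]
    exact hn
  have hlogΘ : Tendsto (fun n : ℕ => Real.log (Real.log (primorial n : ℝ))) atTop atTop :=
    Real.tendsto_log_atTop.comp hΘ
  -- the number of divisors tends to infinity
  have hdn : ∀ᶠ n : ℕ in atTop,
      Real.exp (c2 * Real.log (primorial n) / Real.log (Real.log (primorial n))) ≤
        ((primorial n).divisors.card : ℝ) := by
    filter_upwards [f4_theta, hΘ.eventually (eventually_gt_atTop 1),
      hlogΘ.eventually (eventually_ge_atTop (c2 * Real.log 2 / (Real.log 2 - c2))),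
      eventually_ge_atTop 1] with n g1 g2 g3 g4
    rw [htheta] at g1
    set Θ := Real.log (primorial n : ℝ) with hΘdef
    have hlΘ : 0 < Real.log Θ := Real.log_pos g2
    have h1 : (2 : ℝ) ^ (Nat.primeCounting n) ≤ ((primorial n).divisors.card : ℝ) := by
      have h2 := f2_two_pow (primorial n) (primorial_pos n).ne'
      rw [primeFactors_primorial, Nat.primesLE_card_eq_primeCounting] at h2
      exact_mod_cast h2
    refine le_trans ?_ h1
    have h2 : (2 : ℝ) ^ (Nat.primeCounting n) = Real.exp ((Nat.primeCounting n : ℝ) *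
        Real.log 2) := by
      rw [Real.exp_nat_mul, Real.exp_log (by norm_num)]
    rw [h2]
    apply Real.exp_le_exp.2
    have h3 := Chebyshev.theta_le_pi_mul_log n
    rw [htheta, ← hΘdef] at h3
    have hn1 : (1 : ℝ) ≤ (n : ℝ) := by exact_mod_cast g4
    have h4 : Real.log (n : ℝ) ≤ Real.log 2 + Real.log Θ := by
      rw [← Real.log_mul (by norm_num) (by linarith)]
      exact Real.log_le_log (by linarith) (by linarith)
    have h5 : Θ ≤ (Nat.primeCounting n : ℝ) * (Real.log 2 + Real.log Θ) :=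
      h3.trans (mul_le_mul_of_nonneg_left h4 (Nat.cast_nonneg _))
    have h6 : c2 * (Real.log 2 + Real.log Θ) ≤ Real.log 2 * Real.log Θ := by
      rw [div_le_iff₀ (by linarith)] at g3
      linarith
    rw [div_le_iff₀ hlΘ]
    -- `c2 Θ ≤ π log 2 log Θ`
    have h7 : c2 * Θ ≤ c2 * ((Nat.primeCounting n : ℝ) * (Real.log 2 + Real.log Θ)) :=
      mul_le_mul_of_nonneg_left h5 hc20.le
    have h8 : (Nat.primeCounting n : ℝ) * (c2 * (Real.log 2 + Real.log Θ)) ≤
        (Nat.primeCounting n : ℝ) * (Real.log 2 * Real.log Θ) :=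
      mul_le_mul_of_nonneg_left h6 (Nat.cast_nonneg _)
    linarith
  have hdtop : Tendsto (fun n : ℕ => ((primorial n).divisors.card : ℝ)) atTop atTop := by
    have h1 : Tendsto (fun n : ℕ => Real.exp (c2 * Real.log (primorial n) /
        Real.log (Real.log (primorial n)))) atTop atTop := by
      apply Real.tendsto_exp_atTop.comp
      have h2 : Tendsto (fun y : ℝ => Real.log y / y) atTop (𝓝 0) :=
        Real.isLittleO_log_id_atTop.tendsto_div_nhds_zero
      have h3 : Tendsto (fun y : ℝ => Real.log y / y) atTop (𝓝[>] 0) := by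
        rw [tendsto_nhdsWithin_iff]
        refine ⟨h2, ?_⟩
        filter_upwards [eventually_gt_atTop 1] with y hy
        have : 0 < Real.log y := Real.log_pos hy
        exact div_pos this (by linarith)
      have h4 := (h3.inv_tendsto_nhdsGT_zero).const_mul_atTop hc20
      have h5 := h4.comp hΘ
      refine h5.congr fun n => ?_
      simp only [Function.comp, Pi.inv_apply, inv_div]
      ring
    exact tendsto_atTop_mono' _ hdn h1
  have hev := hdn.and ((hdtop.eventually (g2_rpow β hβ2)).and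
    ((hdtop.eventually (eventually_ge_atTop (d₀ : ℝ))).and
    (hΘ.eventually (eventually_gt_atTop 1))))
  obtain ⟨n₀, hn₀⟩ := eventually_atTop.1 hev
  refine ⟨n₀, fun n hn m hm s hs => ?_⟩
  obtain ⟨g1, g2, g3, g4⟩ := hn₀ n hn
  refine hd₀ (primorial n) m (primorial_pos n) hm (by exact_mod_cast g3) s ?_
  refine hs.trans (le_trans ?_ g2)
  set Θ := Real.log (primorial n : ℝ) with hΘdef
  have hlΘ : 0 < Real.log Θ := Real.log_pos g4
  have h1 : c * Θ / Real.log Θ ≤ (c2 * Θ / Real.log Θ) * β := by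
    have h2 : (c2 * Θ / Real.log Θ) * β = max c 0 * Θ / Real.log Θ := by
      rw [hβ]
      field_simp
    rw [h2]
    have h3 : c * Θ ≤ max c 0 * Θ := mul_le_mul_of_nonneg_right (le_max_left _ _) (by linarith)
    exact div_le_div_of_nonneg_right h3 hlΘ.le
  calc Real.exp (c * Θ / Real.log Θ) ≤ Real.exp ((c2 * Θ / Real.log Θ) * β) :=
        Real.exp_le_exp.2 h1
    _ = (Real.exp (c2 * Θ / Real.log Θ)) ^ β := by rw [Real.exp_mul]
    _ ≤ ((primorial n).divisors.card : ℝ) ^ β :=
        Real.rpow_le_rpow (Real.exp_pos _).le g1 hβ0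

end Pool.Agent.H51F
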